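import Pool.Agent.helper358_ms.Disc2

/-! # `V_n(p, w₀)` is a disc for `w₀ = -p/(1 + p²)`, for every `n ≥ 3` and every `p` -/

set_option autoImplicit false

namespace Pool.Agent.Results.MP_8daf13_an.CentralDisc

open Complex Metric Set Filter Topology PowerSeries
open Pool.Agent.helper358_ms

noncomputable section

theorem result (p : ℝ) (hp0 : 0 < p) (hp1 : p < 1) (n : ℕ) (hn : 3 ≤ n) :
    V n p ((-(p / (1 + p ^ 2)) : ℝ) : ℂ)
      = closedBall ((U p n / U p 1 : ℝ) : ℂ) (U p (n - 2) / U p 1) := by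
  obtain ⟨w₀, hw₀⟩ : ∃ w₀ : ℂ, w₀ = ((-(p / (1 + p ^ 2)) : ℝ) : ℂ) := ⟨_, rfl⟩
  have hU1 : U p 1 = (1 + p ^ 2) / p := by
    rw [U_one hp0 hp1]; field_simp; ring
  have hU1pos : 0 < U p 1 := U_pos hp0 hp1 1
  have hww : w₀ = -1 / (U p 1 : ℂ) := by
    rw [hw₀, hU1]
    have hp : (p : ℂ) ≠ 0 := by exact_mod_cast hp0.ne'
    have hp2 : (1 + (p : ℂ) ^ 2) ≠ 0 := by
      have : (1 + p ^ 2 : ℝ) ≠ 0 := by positivity
      exact_mod_cast this
    push_cast
    field_simp
  have hUc : (U p 1 : ℂ) ≠ 0 := by exact_mod_cast hU1pos.ne'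
  have hw : w₀ ≠ 0 := by rw [hww]; exact div_ne_zero (by norm_num) hUc
  have hc : cc p w₀ = 0 := by
    have h1 := w_mul hp0 hp1 hw
    have h2 : w₀ * U p 1 = -1 := by rw [hww]; exact div_mul_cancel₀ _ hUc
    have h3 : w₀ * cc p w₀ = 0 := by linear_combination (1 / 2 : ℂ) * h2 - (1 / 2 : ℂ) * h1
    exact (mul_eq_zero.1 h3).resolve_left hw
  rw [← hw₀, V_eq hp0 hp1 hw (by omega), hc]
  have hn2 : n - 2 + 2 = n := by omega
  have key : ∀ E g : ℂ → ℂ, DifferentiableOn ℂ E (ball 0 1) → Sch g → (∀ z, z ^ 2 * g z = 1 - E z) →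
      -w₀ * Lam p n (tc E) = (U p n / U p 1 : ℝ) - (1 / (U p 1 : ℂ)) * PowerSeries.coeff (n - 2) (UU p * T g) := by
    intro E g hE hg hgE
    have aE : AnalyticAt ℂ E 0 := analyticAt_zero one_pos hE
    have ag : AnalyticAt ℂ g 0 := analyticAt_zero one_pos hg.holo
    have aid : AnalyticAt ℂ (fun z : ℂ => z) 0 := analyticAt_id
    have aid2 : AnalyticAt ℂ (fun z : ℂ => z ^ 2) 0 := aid.pow 2
    have azg : AnalyticAt ℂ (fun z : ℂ => z ^ 2 * g z) 0 := aid2.mul ag
    have e1 : E = fun z => (fun _ => (1 : ℂ)) z - (fun z => z ^ 2 * g z) z := by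
      funext z
      simp only
      rw [hgE]; ring
    have e2 : T E = 1 - T g * X ^ 2 := by
      rw [e1, T_sub (f := fun _ => (1 : ℂ)) analyticAt_const azg, T_const, T_mul aid2 ag,
        T_pow aid, T_id]
      simp [mul_comm]
    have e3 : Lam p n (tc E) = PowerSeries.coeff n (UU p * T E) := by
      rw [coeff_UU_mul]
      congr 1
      funext k
      rw [coeff_T]
    rw [e3, e2, mul_sub, mul_one, map_sub, ← mul_assoc, PowerSeries.coeff_mul_X_pow', if_pos (by omega), hww]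
    simp only [UU, PowerSeries.coeff_mk]
    push_cast
    field_simp
  ext a
  constructor
  · rintro ⟨E, hE, rfl⟩
    obtain ⟨g, hg, hgE⟩ := disc_schur hE
    rw [key E g hE.holo hg hgE, mem_closedBall, dist_eq_norm]
    have h1 := U_ineq hp0 hp1 hg (n - 2)
    rw [sub_sub_cancel_left, norm_neg, norm_mul, norm_div, norm_one, Complex.norm_of_nonneg hU1pos.le]
    simp only [UR, PowerSeries.coeff_mk] at h1
    rw [div_mul_eq_mul_div, one_mul]
    exact div_le_div_of_nonneg_right h1 hU1pos.le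
  · intro ha
    have hUn : 0 < U p (n - 2) := U_pos hp0 hp1 _
    obtain ⟨x, hx⟩ : ∃ x : ℂ, x = ((U p n / U p 1 : ℝ) - a) * ((U p 1 / U p (n - 2) : ℝ) : ℂ) := ⟨_, rfl⟩
    have hxn : ‖x‖ ≤ 1 := by
      rw [mem_closedBall, dist_eq_norm, norm_sub_rev] at ha
      rw [hx, norm_mul, Complex.norm_of_nonneg (by positivity)]
      calc _ ≤ U p (n - 2) / U p 1 * (U p 1 / U p (n - 2)) :=
            mul_le_mul_of_nonneg_right ha (by positivity)
        _ = 1 := by field_simp
    obtain ⟨E, hE, hr⟩ := (Sch.const hxn).exists_E_omega (c := 0) (by simp)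
    -- `E = 1 - x z²`
    have hcoef : ∀ k, tc E k = tc (fun z => 1 - x * z ^ 2) k := by
      have hE2 : DifferentiableOn ℂ (fun z : ℂ => 1 - x * z ^ 2) (ball 0 1) := by fun_prop
      have hr2 : RelW 0 (fun _ => x) (fun z : ℂ => 1 - x * z ^ 2) := by
        intro z hz
        have d : HasDerivAt (fun z : ℂ => 1 - x * z ^ 2) (-(x * (2 * z))) z := by
          have := ((hasDerivAt_pow 2 z).const_mul x).const_sub 1
          simpa using this
        rw [d.deriv]
        unfold Nw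
        simp
        ring
      intro k
      rw [tc_eq_ek hE.holo hE.zero hr k, tc_eq_ek hE2 (by simp) hr2 k]
    refine ⟨E, hE, ?_⟩
    have h2 : Lam p n (tc E) = Lam p n (tc (fun z => 1 - x * z ^ 2)) := by
      congr 1
      funext k
      exact hcoef k
    rw [h2, key (fun z => 1 - x * z ^ 2) (fun _ => x) (by fun_prop) (Sch.const hxn) (by intro z; ring),
      T_const, mul_comm (UU p), PowerSeries.coeff_C_mul]
    simp only [UU, PowerSeries.coeff_mk]
    rw [hx]
    have hUnc : (U p (n - 2) : ℂ) ≠ 0 := by exact_mod_cast hUn.ne'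
    push_cast
    field_simp
    ring

end

end Pool.Agent.Results.MP_8daf13_an.CentralDisc
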