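import Pool.Agent.helper358_ms.ThreeFill

/-! # The regions of variability of the third coefficient over `Σ*(p, w₀)` and `Σ*(p)`

`V_3(p, w₀)` is determined for every `p` and every `w₀`: it is the compact convex set bounded by an
explicit closed curve made of arcs of a limaçon and arcs of a circle. -/

set_option autoImplicit false

namespace Pool.Agent.Results.MP_8daf13_an.ThirdCoefficient

open Complex Metric Set Filter Topology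
open Pool.Agent.helper358_ms

noncomputable section

/-- `B = (3/2) U₁ - c`, where `U₁ = p + 1/p` and `c = (p + 1/p + 1/w₀)/2`. -/
def BB (p : ℝ) (w₀ : ℂ) : ℂ := 3 / 2 * U p 1 - cc p w₀

/-- The affine map `k ↦ U₂ + w₀ (U₁ (1 - c²) + (2/3) (1 - |c|²) k)`. -/
def A3 (p : ℝ) (w₀ k : ℂ) : ℂ :=
  U p 2 + w₀ * (U p 1 * (1 - cc p w₀ ^ 2) + 2 / 3 * ((1 - (‖cc p w₀‖ ^ 2 : ℝ)) * k))

/-- The limaçon `x ↦ A3 (B x - c̄ x²)`. -/
def limacon (p : ℝ) (w₀ x : ℂ) : ℂ :=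
  A3 p w₀ (BB p w₀ * x - (starRingEnd ℂ) (cc p w₀) * x ^ 2)

/-- The part of the limaçon with `|x| = 1` and `|B - 2 c̄ x| ≥ 2`. -/
def arcL (p : ℝ) (w₀ : ℂ) : Set ℂ :=
  {a | ∃ x : ℂ, ‖x‖ = 1 ∧ 2 ≤ ‖BB p w₀ - 2 * (starRingEnd ℂ) (cc p w₀) * x‖ ∧ a = limacon p w₀ x}

/-- The part of the circle `A3 ((1 + |B|²/(4ε)) v - c B²/(4ε))`, `|v| = 1`, `ε = 1 - |c|²`, with
`|v B̄ - c B| ≤ 2 ε`. -/
def arcC (p : ℝ) (w₀ : ℂ) : Set ℂ :=
  {a | ∃ v : ℂ, ‖v‖ = 1 ∧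
    ‖v * (starRingEnd ℂ) (BB p w₀) - cc p w₀ * BB p w₀‖ ≤ 2 * (1 - ‖cc p w₀‖ ^ 2) ∧
    a = A3 p w₀ (((1 + ‖BB p w₀‖ ^ 2 / (4 * (1 - ‖cc p w₀‖ ^ 2)) : ℝ) : ℂ) * v
      - cc p w₀ * BB p w₀ ^ 2 / ((4 * (1 - ‖cc p w₀‖ ^ 2) : ℝ) : ℂ))}

theorem V3_eq {p : ℝ} (hp0 : 0 < p) (hp1 : p < 1) {w₀ : ℂ} (hw : w₀ ≠ 0) (hc : ‖cc p w₀‖ ≤ 1) :
    V 3 p w₀ = A3 p w₀ '' KK (BB p w₀) (cc p w₀) := by
  rw [V3_param hp0 hp1 hw hc]
  ext a
  constructor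
  · rintro ⟨x, y, hx, hy, rfl⟩
    exact ⟨_, ⟨x, y, hx, hy, rfl⟩, rfl⟩
  · rintro ⟨_, ⟨x, y, hx, hy, rfl⟩, rfl⟩
    exact ⟨x, y, hx, hy, rfl⟩

theorem U1_gt {p : ℝ} (hp0 : 0 < p) (hp1 : p < 1) : 2 < U p 1 := by
  rw [U_one hp0 hp1]
  have h : p * p⁻¹ = 1 := mul_inv_cancel₀ hp0.ne'
  have h2 : 0 < p⁻¹ := inv_pos.2 hp0
  nlinarith [mul_pos (sub_pos.2 hp1) (sub_pos.2 hp1), mul_pos h2 (mul_pos (sub_pos.2 hp1) (sub_pos.2 hp1))]

theorem U1_ge {p : ℝ} (hp0 : 0 < p) (hp : p ≤ 1 / 3) : 10 / 3 ≤ U p 1 := by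
  rw [U_one hp0 (by linarith)]
  have h : p * p⁻¹ = 1 := mul_inv_cancel₀ hp0.ne'
  have h2 : 0 < p⁻¹ := inv_pos.2 hp0
  have h3 : 3 ≤ p⁻¹ := by
    rw [le_inv_comm₀ (by norm_num) hp0]; linarith
  nlinarith [mul_nonneg (sub_nonneg.2 hp) (sub_nonneg.2 h3)]

/-- The affine map as a homeomorphism. -/
theorem homeo {p : ℝ} {w₀ : ℂ} (hw : w₀ ≠ 0) (hc : ‖cc p w₀‖ < 1) :
    ∃ (h : ℂ ≃ₜ ℂ) (L : ℂ →ₗ[ℝ] ℂ) (b : ℂ), (∀ k, h k = A3 p w₀ k) ∧ (∀ k, A3 p w₀ k = L k + b) := by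
  have he : (0 : ℝ) < 1 - ‖cc p w₀‖ ^ 2 := by nlinarith [norm_nonneg (cc p w₀)]
  obtain ⟨m, hm⟩ : ∃ m : ℂ, m = w₀ * (2 / 3 * ((1 - ‖cc p w₀‖ ^ 2 : ℝ) : ℂ)) := ⟨_, rfl⟩
  have hm0 : m ≠ 0 := by
    rw [hm]
    refine mul_ne_zero hw (mul_ne_zero (by norm_num) ?_)
    exact_mod_cast he.ne'
  obtain ⟨b, hb⟩ : ∃ b : ℂ, b = U p 2 + w₀ * (U p 1 * (1 - cc p w₀ ^ 2)) := ⟨_, rfl⟩
  have hA : ∀ k, A3 p w₀ k = m * k + b := by
    intro k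
    unfold A3
    rw [hm, hb]
    push_cast
    ring
  refine ⟨(Homeomorph.mulLeft₀ m hm0).trans (Homeomorph.addRight b), LinearMap.mulLeft ℝ m, b, ?_, ?_⟩
  · intro k
    rw [hA]
    simp
  · intro k
    rw [hA]
    simp

theorem arcs_image {p : ℝ} {w₀ : ℂ} :
    A3 p w₀ '' (LL (BB p w₀) (cc p w₀) ∪ CA (BB p w₀) (cc p w₀)) = arcL p w₀ ∪ arcC p w₀ := by
  rw [image_union]
  congr 1
  · ext a
    constructor
    · rintro ⟨_, ⟨x, hx, hl, rfl⟩, rfl⟩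
      exact ⟨x, hx, hl, rfl⟩
    · rintro ⟨x, hx, hl, rfl⟩
      exact ⟨_, ⟨x, hx, hl, rfl⟩, rfl⟩
  · ext a
    constructor
    · rintro ⟨_, ⟨v, hv, hl, rfl⟩, rfl⟩
      exact ⟨v, hv, hl, rfl⟩
    · rintro ⟨v, hv, hl, rfl⟩
      exact ⟨_, ⟨v, hv, hl, rfl⟩, rfl⟩

/-- The value of the third coefficient of the function with parameters `c`, `x`, `|x| = 1`. -/
def S3 (p : ℝ) (c x : ℂ) : ℂ :=
  U p 2 - (U p 1 * (1 - c ^ 2) + 2 / 3 * ((1 - (‖c‖ ^ 2 : ℝ)) *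
    ((3 / 2 * U p 1 - c) * x - (starRingEnd ℂ) c * x ^ 2))) / (U p 1 - 2 * c)

theorem den_ne {p : ℝ} (hp0 : 0 < p) (hp1 : p < 1) {c : ℂ} (hc : ‖c‖ ≤ 1) :
    (U p 1 : ℂ) - 2 * c ≠ 0 := by
  intro h
  have h1 : (U p 1 : ℂ) = 2 * c := sub_eq_zero.1 h
  have h2 := congrArg norm h1
  rw [Complex.norm_of_nonneg (U_pos hp0 hp1 1).le, norm_mul] at h2
  have := U1_gt hp0 hp1
  have h3 : ‖(2 : ℂ)‖ = 2 := by simp
  rw [h3] at h2
  linarith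

theorem limacon_eq {p : ℝ} (hp0 : 0 < p) (hp1 : p < 1) {w₀ : ℂ} (hw : w₀ ≠ 0)
    (hc : ‖cc p w₀‖ ≤ 1) (x : ℂ) : limacon p w₀ x = S3 p (cc p w₀) x := by
  have h1 := w_mul hp0 hp1 hw
  have h2 := den_ne hp0 hp1 hc
  unfold limacon S3 A3 BB
  rw [eq_sub_iff_add_eq, ← eq_sub_iff_add_eq', div_eq_iff h2]
  linear_combination (-(U p 1 * (1 - cc p w₀ ^ 2) + 2 / 3 * ((1 - (‖cc p w₀‖ ^ 2 : ℝ)) *
    ((3 / 2 * U p 1 - cc p w₀) * x - (starRingEnd ℂ) (cc p w₀) * x ^ 2)))) * (-h1)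

/-- Every point `c` of the closed disc is the parameter of some `w₀`. -/
theorem exists_w {p : ℝ} (hp0 : 0 < p) (hp1 : p < 1) {c : ℂ} (hc : ‖c‖ ≤ 1) :
    ∃ w₀ : ℂ, w₀ ≠ 0 ∧ cc p w₀ = c := by
  have h2 := den_ne hp0 hp1 hc
  refine ⟨-1 / (U p 1 - 2 * c), div_ne_zero (by norm_num) h2, ?_⟩
  unfold cc
  have h3 : (U p 1 : ℂ) = p + 1 / p := by rw [U_one hp0 hp1]; push_cast; ring
  rw [← h3]
  field_simp
  ring

theorem result (p : ℝ) (hp0 : 0 < p) (hp1 : p < 1) :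
    (∀ w₀ : ℂ, w₀ ≠ 0 →
      (1 < ‖cc p w₀‖ → V 3 p w₀ = ∅) ∧
      (‖cc p w₀‖ = 1 → V 3 p w₀ = {A3 p w₀ 0}) ∧
      (‖cc p w₀‖ < 1 → Convex ℝ (V 3 p w₀) ∧ IsCompact (V 3 p w₀) ∧ (interior (V 3 p w₀)).Nonempty ∧
        frontier (V 3 p w₀) = arcL p w₀ ∪ arcC p w₀ ∧
        V 3 p w₀ = convexHull ℝ (arcL p w₀ ∪ arcC p w₀) ∧
        (2 * (1 + ‖cc p w₀‖) ≤ ‖BB p w₀‖ →
          frontier (V 3 p w₀) = limacon p w₀ '' sphere 0 1 ∧
          V 3 p w₀ = limacon p w₀ '' closedBall 0 1)) ∧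
      (p ≤ 1 / 3 → ‖cc p w₀‖ ≤ 1 → 2 * (1 + ‖cc p w₀‖) ≤ ‖BB p w₀‖)) ∧
    (p ≤ 1 / 3 → VU 3 p = {a | ∃ c x : ℂ, ‖c‖ ≤ 1 ∧ ‖x‖ = 1 ∧ a = S3 p c x}) := by
  have hsmall : ∀ c : ℂ, p ≤ 1 / 3 → ‖c‖ ≤ 1 → 2 * (1 + ‖c‖) ≤ ‖3 / 2 * (U p 1 : ℂ) - c‖ := by
    intro c hp3 hc
    have h1 := U1_ge hp0 hp3
    have h2 := norm_sub_norm_le (3 / 2 * (U p 1 : ℂ)) c
    have h3 : ‖3 / 2 * (U p 1 : ℂ)‖ = 3 / 2 * U p 1 := by
      have : (3 / 2 * (U p 1 : ℂ)) = ((3 / 2 * U p 1 : ℝ) : ℂ) := by push_cast; ring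
      rw [this, Complex.norm_of_nonneg (by linarith)]
    rw [h3] at h2
    linarith
  have hpart : ∀ w₀ : ℂ, w₀ ≠ 0 → (2 * (1 + ‖cc p w₀‖) ≤ ‖BB p w₀‖) → ‖cc p w₀‖ ≤ 1 →
      V 3 p w₀ = limacon p w₀ '' closedBall 0 1 := by
    intro w₀ hw hB hc
    rw [V3_eq hp0 hp1 hw hc, KK_eq_image hB, image_image]
    rfl
  refine ⟨fun w₀ hw => ⟨?_, ?_, ?_, ?_⟩, ?_⟩
  · intro hc
    rw [V_eq hp0 hp1 hw (by norm_num)]
    ext a
    constructor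
    · rintro ⟨E, hE, -⟩
      have := hE.norm_le
      linarith
    · intro h
      exact absurd h (notMem_empty a)
  · intro hc
    rw [V3_eq hp0 hp1 hw hc.le]
    ext a
    constructor
    · rintro ⟨k, -, rfl⟩
      rw [mem_singleton_iff]
      unfold A3
      rw [hc]; simp
    · intro h
      rw [mem_singleton_iff] at h
      exact ⟨0, ⟨0, 0, by simp, by simp, by unfold kap; simp⟩, h.symm⟩
  · intro hc
    obtain ⟨h, L, b, hh, hL⟩ := homeo (p := p) hw hc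
    have hfun : (A3 p w₀ : ℂ → ℂ) = h := by funext k; exact (hh k).symm
    have hV := V3_eq hp0 hp1 hw hc.le
    have hcomp : IsCompact (V 3 p w₀) := by
      rw [hV, hfun]
      exact (isCompact_KK _ _).image h.continuous
    have hconv : Convex ℝ (V 3 p w₀) := by
      rw [hV]
      have h1 := ((convex_KK (B := BB p w₀) hc.le).linear_image L).translate b
      have h2 : A3 p w₀ '' KK (BB p w₀) (cc p w₀) = (fun x => b + x) '' (L '' KK (BB p w₀) (cc p w₀)) := by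
        rw [image_image]
        apply image_congr
        intro k _
        rw [hL, add_comm]
      rw [h2]
      exact h1
    have hfr : frontier (V 3 p w₀) = arcL p w₀ ∪ arcC p w₀ := by
      rw [hV, hfun, ← h.image_frontier, frontier_KK hc, ← hfun, arcs_image]
    have hint : (interior (V 3 p w₀)).Nonempty := by
      rw [hV, hfun, ← h.image_interior]
      exact ⟨h 0, 0, zero_mem_interior_KK _ _, rfl⟩
    refine ⟨hconv, hcomp, hint, hfr, ?_, ?_⟩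
    · rw [← hfr]
      exact (hull_frontier hcomp hconv).symm
    · intro hB
      refine ⟨?_, hpart w₀ hw hB hc.le⟩
      rw [hfr, ← arcs_image, arcs_eq_circle hc hB, image_image]
      rfl
  · intro hp3 hc
    exact hsmall _ hp3 hc
  · intro hp3
    ext a
    constructor
    · rintro ⟨w₀, hw, ha⟩
      have hc : ‖cc p w₀‖ ≤ 1 := by
        rw [V_eq hp0 hp1 hw (by norm_num)] at ha
        obtain ⟨E, hE, -⟩ := ha
        exact hE.norm_le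
      rw [hpart w₀ hw (hsmall _ hp3 hc) hc] at ha
      obtain ⟨x0, hx0, rfl⟩ := ha
      have hx0' : ‖x0‖ ≤ 1 := by simpa using hx0
      rw [limacon_eq hp0 hp1 hw hc]
      obtain ⟨c0, hc0⟩ : ∃ c0, c0 = cc p w₀ := ⟨_, rfl⟩
      rw [← hc0] at hc ⊢
      by_contra hcon
      simp only [mem_ofPred_eq, not_exists, not_and] at hcon
      obtain ⟨a, ha⟩ : ∃ a, a = S3 p c0 x0 := ⟨_, rfl⟩
      rw [← ha] at hcon
      obtain ⟨F, hFdef⟩ : ∃ F : ℝ → ℂ → ℂ, F = fun (t : ℝ) (x : ℂ) =>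
          (U p 2 - a) * (U p 1 - 2 * (c0 + t * (1 - c0))) - (U p 1 * (1 - (c0 + t * (1 - c0)) ^ 2)
            + 2 / 3 * ((1 - (‖c0 + t * (1 - c0)‖ ^ 2 : ℝ)) *
            ((3 / 2 * U p 1 - (c0 + t * (1 - c0))) * x
              - (starRingEnd ℂ) (c0 + t * (1 - c0)) * x ^ 2))) := ⟨_, rfl⟩
      have hF : Continuous (Function.uncurry F) := by
        rw [hFdef]
        unfold Function.uncurry
        have hconj : Continuous fun q : ℝ × ℂ => (starRingEnd ℂ) (c0 + (q.1 : ℂ) * (1 - c0)) :=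
          Complex.continuous_conj.comp (by fun_prop)
        fun_prop
      have hd : ∀ t, Differentiable ℂ (F t) := by
        intro t
        rw [hFdef]
        simp only
        fun_prop
      have hct : ∀ t ∈ Icc (0 : ℝ) 1, ‖c0 + t * (1 - c0)‖ ≤ 1 := by
        rintro t ⟨ht0, ht1⟩
        have e : c0 + t * (1 - c0) = ((1 - t : ℝ) : ℂ) * c0 + (t : ℂ) := by push_cast; ring
        rw [e]
        refine (norm_add_le _ _).trans ?_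
        rw [norm_mul, Complex.norm_of_nonneg ht0, Complex.norm_of_nonneg (by linarith)]
        nlinarith
      have hkey : ∀ t : ℝ, ∀ x : ℂ, ‖c0 + t * (1 - c0)‖ ≤ 1 → F t x = 0 →
          a = S3 p (c0 + t * (1 - c0)) x := by
        intro t x h1 h2
        have h3 := den_ne hp0 hp1 h1
        rw [hFdef] at h2
        simp only at h2
        unfold S3
        rw [eq_sub_iff_add_eq, ← eq_sub_iff_add_eq', div_eq_iff h3]
        linear_combination -h2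
      have hne : ∀ t ∈ Icc (0 : ℝ) 1, ∀ x : ℂ, ‖x‖ = 1 → F t x ≠ 0 := by
        intro t ht x hx h
        exact hcon _ x (hct t ht) hx (hkey t x (hct t ht) h)
      have h0 : ∃ x : ℂ, ‖x‖ ≤ 1 ∧ F 0 x = 0 := by
        refine ⟨x0, hx0', ?_⟩
        have h3 := den_ne hp0 hp1 hc
        rw [hFdef, ha]
        unfold S3
        simp only [Complex.ofReal_zero, zero_mul, add_zero]
        rw [sub_sub_cancel, div_mul_cancel₀ _ h3, sub_self]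
      obtain ⟨x, hx, hx2⟩ := zero_homotopy hF hd hne h0
      apply hne 1 (right_mem_Icc.2 zero_le_one) 1 (by simp)
      rw [hFdef] at hx2 ⊢
      simp only [Complex.ofReal_one, one_mul, add_sub_cancel, norm_one] at hx2 ⊢
      simpa using hx2
    · rintro ⟨c, x, hc, hx, rfl⟩
      obtain ⟨w₀, hw, rfl⟩ := exists_w hp0 hp1 hc
      refine ⟨w₀, hw, ?_⟩
      rw [hpart w₀ hw (hsmall _ hp3 hc) hc, ← limacon_eq hp0 hp1 hw hc]
      exact ⟨x, by simpa using hx.le, rfl⟩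

end

end Pool.Agent.Results.MP_8daf13_an.ThirdCoefficient
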