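import Pool.Agent.helper358_ms.Main2
import Pool.Agent.helper358_ms.Large
import Pool.Agent.helper358_ms.Five
import Pool.Agent.helper358_ms.Four

/-! # The regions `V_n(p, w₀)` and `V_n(p)`: all `n ≥ 3` for `p ≤ 1/3`, and all large `n` for every `p`

In these ranges `V_n(p, w₀)` is the closed region bounded by the Jordan curve traced by the
coefficients of the functions with two-point measures: it is the image of the closed unit disc under
the explicit polynomial `Gam p n w₀`. -/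

set_option autoImplicit false

namespace Pool.Agent.Results.MP_8daf13_an.UniformRegions

open Complex Metric Set Filter Topology
open Pool.Agent.helper358_ms

noncomputable section

/-- The range of `(p, n)`: every `n ≥ 3` if `p ≤ 1/3`, and every sufficiently large `n` otherwise. -/
def Adm (p : ℝ) (n : ℕ) : Prop :=
  3 ≤ n ∧ (p ≤ 1 / 3 ∨ (1 + p) ^ 6 * √p ^ (n - 2) < (1 - √p) ^ 6 * (1 - p) ^ 4)

theorem UP_adm {p : ℝ} (hp0 : 0 < p) (hp1 : p < 1) {n : ℕ} (h : Adm p n) {c : ℂ} (hc : ‖c‖ < 1) :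
    UP p n c := by
  obtain ⟨hn, h | h⟩ := h
  · rcases Nat.lt_or_ge n 5 with h5 | h5
    · rcases Nat.lt_or_ge n 4 with h4 | h4
      · obtain rfl : n = 3 := by omega
        exact UP_three hp0 h hc
      · obtain rfl : n = 4 := by omega
        exact UP_four hp0 h hc
    · exact UP_five hp0 h h5 hc
  · exact UP_large hp0 hp1 (by omega) h hc

theorem result (p : ℝ) (hp0 : 0 < p) (hp1 : p < 1) :
    (∃ N : ℕ, ∀ n ≥ N, Adm p n) ∧
    ∀ n : ℕ, Adm p n →
      (∀ w₀ : ℂ, w₀ ≠ 0 →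
        (1 < ‖cc p w₀‖ → V n p w₀ = ∅) ∧
        (‖cc p w₀‖ = 1 → V n p w₀ = {Gam p n w₀ 0}) ∧
        (‖cc p w₀‖ < 1 → V n p w₀ = Gam p n w₀ '' closedBall 0 1 ∧
          InjOn (Gam p n w₀) (sphere 0 1) ∧ frontier (V n p w₀) = Gam p n w₀ '' sphere 0 1)) ∧
      VU n p = {a | ∃ c x : ℂ, ‖c‖ ≤ 1 ∧ ‖x‖ = 1 ∧ a = Gl p n c x / (U p 1 - 2 * c)} := by
  refine ⟨?_, fun n hn => ⟨fun w₀ hw => ⟨?_, ?_, ?_⟩, ?_⟩⟩
  · have hq0 : 0 ≤ √p := Real.sqrt_nonneg p
    have hqq : √p ^ 2 = p := Real.sq_sqrt hp0.le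
    have hq1 : √p < 1 := by nlinarith
    have hpos : 0 < (1 - √p) ^ 6 * (1 - p) ^ 4 / (1 + p) ^ 6 := by
      have h1 : 0 < 1 - √p := by linarith
      have h2 : 0 < 1 - p := by linarith
      positivity
    have ht := (tendsto_pow_atTop_nhds_zero_of_lt_one hq0 hq1).eventually (gt_mem_nhds hpos)
    obtain ⟨N, hN⟩ := ht.exists_forall_of_atTop
    refine ⟨N + 3, fun n hn => ⟨by omega, Or.inr ?_⟩⟩
    have h3 := hN (n - 2) (by omega)
    rw [lt_div_iff₀ (by positivity)] at h3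
    linarith
  · intro hc
    exact V_empty hp0 hp1 (by have := hn.1; omega) hw hc
  · intro hc
    exact V_unimod hp0 hp1 (by have := hn.1; omega) hw hc
  · intro hc
    exact V_main hp0 hp1 (by have := hn.1; omega) hw hc (UP_adm hp0 hp1 hn hc)
  · exact VU_main hp0 hp1 (by have := hn.1; omega) (fun c hc => UP_adm hp0 hp1 hn hc)

end

end Pool.Agent.Results.MP_8daf13_an.UniformRegions
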